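import Mathlib

/-! A generic linear perturbation of a complex polynomial in two variables has nondegenerate
critical points with distinct critical values. The proof uses derivations of `ℂ` over `ℚ`. -/

namespace Pool.Agent.Lib.helper84

open MvPolynomial

open scoped IntermediateField.algebraAdjoinAdjoin in
theorem exists_derivations (T : Finset ℂ) : ∃ (a : Fin 2 → ℂ) (D : Fin 2 → Derivation ℚ ℂ ℂ),
    (∀ i j, D i (a j) = if j = i then 1 else 0) ∧ ∀ i, ∀ c ∈ T, D i c = 0 := by
  classical
  obtain ⟨s, hs⟩ := exists_isTranscendenceBasis ℚ ℂ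
  have hinf : Infinite s := by
    rw [← Cardinal.aleph0_le_mk_iff,
      ← IsAlgClosed.cardinal_eq_cardinal_transcendence_basis_of_aleph0_lt' _ hs (by simp)
        (by rw [Cardinal.mk_complex]; exact Cardinal.aleph0_lt_continuum), Cardinal.mk_complex]
    exact Cardinal.aleph0_le_continuum
  let A := Algebra.adjoin ℚ (Set.range ((↑) : s → ℂ))
  let F := IntermediateField.adjoin ℚ (Set.range ((↑) : s → ℂ))
  have : Algebra.IsAlgebraic F ℂ := hs.isAlgebraic_field
  have : Algebra.FormallyEtale F ℂ := .of_isSeparable _ _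
  have : Algebra.FormallyEtale A F := .of_isLocalization (nonZeroDivisors _)
  have : Algebra.FormallyEtale A ℂ := .comp A F ℂ
  let : Algebra (MvPolynomial s ℚ) A := hs.1.aevalEquiv.toRingEquiv.toRingHom.toAlgebra
  let : Algebra (MvPolynomial s ℚ) ℂ := (aeval (R := ℚ) ((↑) : s → ℂ)).toRingHom.toAlgebra
  have : IsScalarTower (MvPolynomial s ℚ) A ℂ :=
    .of_algebraMap_eq fun x => (hs.1.algebraMap_aevalEquiv x).symm
  have : IsScalarTower ℚ (MvPolynomial s ℚ) ℂ :=
    .of_algebraMap_eq fun x => ((aeval (R := ℚ) ((↑) : s → ℂ)).commutes x).symm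
  have : Algebra.FormallyEtale (MvPolynomial s ℚ) A :=
    .of_equiv (A := MvPolynomial s ℚ) { hs.1.aevalEquiv.toRingEquiv with commutes' := fun _ => rfl }
  have : Algebra.FormallyEtale (MvPolynomial s ℚ) ℂ := .comp _ A ℂ
  let b := (KaehlerDifferential.isBaseChange_of_formallyEtale ℚ (MvPolynomial s ℚ) ℂ).basis
    (KaehlerDifferential.mvPolynomialBasis ℚ s)
  have hb : ∀ x : s, b x = KaehlerDifferential.D ℚ ℂ x := fun x => by
    rw [IsBaseChange.basis_apply, KaehlerDifferential.mvPolynomialBasis_apply,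
      KaehlerDifferential.map_D]
    congr 1
    exact aeval_X _ _
  let W : Finset s := T.biUnion fun c => (b.repr (KaehlerDifferential.D ℚ ℂ c)).support
  obtain ⟨x, hx⟩ := Infinite.exists_notMem_finset W
  obtain ⟨y, hy⟩ := Infinite.exists_notMem_finset (insert x W)
  rw [Finset.mem_insert, not_or] at hy
  let e : Fin 2 → s := ![x, y]
  have he : Function.Injective e := by
    intro i j hij
    fin_cases i <;> fin_cases j
    · rfl
    · exact absurd hij.symm hy.1
    · exact absurd hij hy.1
    · rfl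
  have heW : ∀ i, e i ∉ W := by
    intro i
    fin_cases i
    · exact hx
    · exact hy.2
  refine ⟨fun j => e j, fun i => (b.coord (e i)).compDer (KaehlerDifferential.D ℚ ℂ), fun i j => ?_,
    fun i c hc => ?_⟩
  · change b.repr (KaehlerDifferential.D ℚ ℂ (e j)) (e i) = _
    rw [← hb, b.repr_self, Finsupp.single_apply]
    simp only [he.eq_iff]
  · change b.repr (KaehlerDifferential.D ℚ ℂ c) (e i) = 0
    by_contra h
    exact heW i (Finset.mem_biUnion.2 ⟨c, hc, Finsupp.mem_support_iff.2 h⟩)

theorem chain_rule (D : Derivation ℚ ℂ ℂ) (p : Fin 2 → ℂ) (h : MvPolynomial (Fin 2) ℂ)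
    (hc : ∀ m ∈ h.support, D (h.coeff m) = 0) :
    D (eval p h) = eval p (pderiv 0 h) * D (p 0) + eval p (pderiv 1 h) * D (p 1) := by
  let R : Subring (MvPolynomial (Fin 2) ℂ) :=
    { carrier := {h | D (eval p h) = eval p (pderiv 0 h) * D (p 0) + eval p (pderiv 1 h) * D (p 1)}
      mul_mem' := fun {u v} hu hv => by
        have hu : D (eval p u) = _ := hu
        have hv : D (eval p v) = _ := hv
        show D (eval p (u * v)) = _
        simp only [map_mul, Derivation.leibniz, map_add, smul_eq_mul, hu, hv]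
        ring
      one_mem' := by
        show D (eval p 1) = _
        simp
      add_mem' := fun {u v} hu hv => by
        have hu : D (eval p u) = _ := hu
        have hv : D (eval p v) = _ := hv
        show D (eval p (u + v)) = _
        simp only [map_add, hu, hv]
        ring
      zero_mem' := by
        show D (eval p 0) = _
        simp
      neg_mem' := fun {u} hu => by
        have hu : D (eval p u) = _ := hu
        show D (eval p (-u)) = _
        simp only [map_neg, hu]
        ring }
  have hX : ∀ k, X k ∈ R := fun k => by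
    show D (eval p (X k)) = _
    fin_cases k <;> simp
  have : h ∈ R := by
    rw [h.as_sum]
    refine sum_mem fun m hm => ?_
    rw [monomial_eq]
    refine mul_mem ?_ (prod_mem fun k _ => pow_mem (hX k) _)
    show D (eval p (C _)) = _
    simp [hc m hm]
  exact this

theorem exists_morse (f : MvPolynomial (Fin 2) ℂ) : ∃ a : Fin 2 → ℂ, ∀ g,
    g = f + (C (a 0) * X 0 + C (a 1) * X 1) →
    (∀ p : Fin 2 → ℂ, (∀ i, eval p (pderiv i g) = 0) →
      eval p (pderiv 0 (pderiv 0 g) * pderiv 1 (pderiv 1 g) -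
        pderiv 0 (pderiv 1 g) * pderiv 1 (pderiv 0 g)) ≠ 0) ∧
    (∀ p q : Fin 2 → ℂ, (∀ i, eval p (pderiv i g) = 0) → (∀ i, eval q (pderiv i g) = 0) →
      eval p g = eval q g → p = q) := by
  classical
  let c : MvPolynomial (Fin 2) ℂ → Finset ℂ := fun h => h.support.image fun m => h.coeff m
  obtain ⟨a, D, hD, hT⟩ := exists_derivations (c f ∪ (c (pderiv 0 f) ∪ c (pderiv 1 f)))
  have hc : ∀ h : MvPolynomial (Fin 2) ℂ, ∀ m ∈ h.support, h.coeff m ∈ c h := fun h m hm =>
    Finset.mem_image_of_mem _ hm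
  have k0 := fun i p => chain_rule (D i) p f fun m hm => hT i _ (Finset.mem_union_left _ (hc _ m hm))
  have k1 := fun i p => chain_rule (D i) p (pderiv 0 f) fun m hm =>
    hT i _ (Finset.mem_union_right _ (Finset.mem_union_left _ (hc _ m hm)))
  have k2 := fun i p => chain_rule (D i) p (pderiv 1 f) fun m hm =>
    hT i _ (Finset.mem_union_right _ (Finset.mem_union_right _ (hc _ m hm)))
  have d00 : D 0 (a 0) = 1 := by simp [hD]
  have d01 : D 0 (a 1) = 0 := by simp [hD]
  have d10 : D 1 (a 0) = 0 := by simp [hD]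
  have d11 : D 1 (a 1) = 1 := by simp [hD]
  refine ⟨a, fun g hg => ?_⟩
  have g0 : pderiv 0 g = pderiv 0 f + C (a 0) := by simp [hg]
  have g1 : pderiv 1 g = pderiv 1 f + C (a 1) := by simp [hg]
  have crit : ∀ p : Fin 2 → ℂ, (∀ i, eval p (pderiv i g) = 0) →
      eval p (pderiv 0 f) = -a 0 ∧ eval p (pderiv 1 f) = -a 1 := fun p hp => by
    have h0 := hp 0
    have h1 := hp 1
    rw [g0, map_add, eval_C] at h0
    rw [g1, map_add, eval_C] at h1
    exact ⟨eq_neg_of_add_eq_zero_left h0, eq_neg_of_add_eq_zero_left h1⟩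
  have val : ∀ p : Fin 2 → ℂ, (∀ i, eval p (pderiv i g) = 0) → ∀ i, D i (eval p g) = p i := by
    intro p hp
    obtain ⟨h0, h1⟩ := crit p hp
    have e : ∀ i, D i (eval p g) = p 0 * D i (a 0) + p 1 * D i (a 1) := fun i => by
      simp only [hg, map_add, map_mul, eval_C, eval_X, Derivation.leibniz, smul_eq_mul, k0, h0, h1]
      ring
    rw [Fin.forall_fin_two, e, e, d00, d01, d10, d11]
    constructor <;> ring
  refine ⟨fun p hp h => ?_, fun p q hp hq h => funext fun i => ?_⟩
  · obtain ⟨h0, h1⟩ := crit p hp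
    have e1 := k1 0 p
    have e2 := k1 1 p
    have e3 := k2 0 p
    have e4 := k2 1 p
    rw [h0, map_neg] at e1 e2
    rw [h1, map_neg] at e3 e4
    rw [d00] at e1
    rw [d10] at e2
    rw [d01] at e3
    rw [d11] at e4
    simp only [g0, g1, map_add, pderiv_C, add_zero, map_sub, map_mul] at h
    have : (1 : ℂ) = 0 := by
      linear_combination (-1 : ℂ) * e1 + (eval p (pderiv 0 (pderiv 0 f)) * D 0 (p 0) +
        eval p (pderiv 1 (pderiv 0 f)) * D 0 (p 1)) * e4 - (eval p (pderiv 0 (pderiv 1 f)) * D 0 (p 0) +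
        eval p (pderiv 1 (pderiv 1 f)) * D 0 (p 1)) * e2 +
        (D 0 (p 0) * D 1 (p 1) - D 0 (p 1) * D 1 (p 0)) * h
    exact one_ne_zero this
  · rw [← val p hp i, h, val q hq i]

end Pool.Agent.Lib.helper84
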